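import Mathlib

set_option autoImplicit false

namespace Pool.Agent.Lib.MP_a80a1d_co

open Finset

/-- In a forest every nonempty finite vertex set has a vertex with at most one neighbour in it. -/
lemma exists_leaf {V : Type*} [Finite V] (F : SimpleGraph V) (hF : F.IsAcyclic) (s : Finset V)
    (hs : s.Nonempty) :
    ∃ v ∈ s, ∀ u ∈ s, ∀ w ∈ s, F.Adj v u → F.Adj v w → u = w := by
  classical
  have hne : Nonempty (s : Set V) := ⟨⟨hs.choose, hs.choose_spec⟩⟩
  have hA := hF.induce (s : Set V)
  obtain ⟨a, b, p, hp, hmax⟩ :=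
    SimpleGraph.Walk.exists_isPath_forall_isPath_length_le_length (F.induce (s : Set V))
  have key : ∀ x : (s : Set V), (F.induce (s : Set V)).Adj a x → x = p.snd := by
    intro x hx
    by_cases hxs : x ∈ p.support
    · exact hA.eq_snd_of_adj_start hp hx hxs
    · have := hmax x b (p.cons hx.symm) (hp.cons hxs)
      simp at this
  refine ⟨a.1, a.2, fun u hu w hw h1 h2 => ?_⟩
  have e1 := key ⟨u, hu⟩ h1
  have e2 := key ⟨w, hw⟩ h2
  have := e1.trans e2.symm
  simpa using this

open Classical in
/-- Leaf by leaf embedding of a forest. -/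
lemma embed {V α : Type*} [Finite V] (F : SimpleGraph V) (hF : F.IsAcyclic)
    (Om : V → Finset α) (nu : V → α → ℝ) (hnu : ∀ v x, 0 ≤ nu v x) (R : α → α → Prop)
    (hR : ∀ x y, R x y → R y x) (eta om : ℝ) (heta : 0 ≤ eta)
    (hom : ∀ v, om ≤ ∑ x ∈ Om v, nu v x)
    (hedge : ∀ u v, F.Adj u v → ∀ Bad : Set α,
      ∑ x ∈ (Om u).filter (fun x => ∀ y ∈ Om v, R x y → y ∈ Bad), nu u x ≤
        ∑ y ∈ (Om v).filter (fun y => y ∈ Bad), nu v y + eta)
    (x0 : α) (s : Finset V) :
    ∀ Bad : V → Set α,
      ∑ v ∈ s, ∑ x ∈ (Om v).filter (fun x => x ∈ Bad v), nu v x + s.card * eta < om →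
      ∃ f : V → α, (∀ v ∈ s, f v ∈ Om v ∧ f v ∉ Bad v) ∧
        ∀ u ∈ s, ∀ v ∈ s, F.Adj u v → R (f u) (f v) := by
  induction s using Finset.strongInduction with
  | H s ih =>
    intro Bad hB
    rcases s.eq_empty_or_nonempty with rfl | hs
    · exact ⟨fun _ => x0, by simp, by simp⟩
    obtain ⟨v, hv, hleaf⟩ := exists_leaf F hF s hs
    have hnn : ∀ (u : V) (B : Set α), 0 ≤ ∑ x ∈ (Om u).filter (fun x => x ∈ B), nu u x :=
      fun u B => sum_nonneg fun x _ => hnu u x
    have hcard : ((s.erase v).card : ℝ) = s.card - 1 := by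
      rw [card_erase_of_mem hv, Nat.cast_sub (card_pos.2 hs)]; simp
    have hsplit := add_sum_erase s
      (fun u => ∑ x ∈ (Om u).filter (fun x => x ∈ Bad u), nu u x) hv
    by_cases hnb : ∃ u ∈ s, F.Adj v u
    · obtain ⟨u, hu, hvu⟩ := hnb
      have huv : u ≠ v := hvu.ne'
      have hu' : u ∈ s.erase v := mem_erase.2 ⟨huv, hu⟩
      let Bad' : V → Set α := Function.update Bad u
        (Bad u ∪ {x | ∀ y ∈ Om v, R x y → y ∈ Bad v})
      have hB'u : Bad' u = Bad u ∪ {x | ∀ y ∈ Om v, R x y → y ∈ Bad v} := by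
        simp [Bad']
      have hB'w : ∀ w, w ≠ u → Bad' w = Bad w := fun w hw => by simp [Bad', hw]
      have hle : ∑ x ∈ (Om u).filter (fun x => x ∈ Bad' u), nu u x ≤
          ∑ x ∈ (Om u).filter (fun x => x ∈ Bad u), nu u x +
          (∑ y ∈ (Om v).filter (fun y => y ∈ Bad v), nu v y + eta) := by
        refine le_trans ?_ (add_le_add le_rfl (hedge u v hvu.symm (Bad v)))
        rw [sum_filter, sum_filter, sum_filter, ← sum_add_distrib]
        refine sum_le_sum fun x _ => ?_
        have := hnu u x
        rw [hB'u]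
        simp only [Set.mem_union, Set.mem_ofPred_eq]
        split_ifs <;> first | linarith | tauto
      have h1 := add_sum_erase (s.erase v)
        (fun w => ∑ x ∈ (Om w).filter (fun x => x ∈ Bad w), nu w x) hu'
      have h2 := add_sum_erase (s.erase v)
        (fun w => ∑ x ∈ (Om w).filter (fun x => x ∈ Bad' w), nu w x) hu'
      have h3 : ∑ w ∈ (s.erase v).erase u, ∑ x ∈ (Om w).filter (fun x => x ∈ Bad' w), nu w x =
          ∑ w ∈ (s.erase v).erase u, ∑ x ∈ (Om w).filter (fun x => x ∈ Bad w), nu w x :=
        sum_congr rfl fun w hw => by rw [hB'w w (mem_erase.1 hw).1]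
      obtain ⟨f, hf1, hf2⟩ := ih (s.erase v) (erase_ssubset hv) Bad' (by
        rw [hcard]; nlinarith)
      have hfu := (hf1 u hu').2
      rw [hB'u] at hfu
      simp only [Set.mem_union, Set.mem_ofPred_eq, not_or, not_forall] at hfu
      obtain ⟨-, y, hy, hRy, hyB⟩ := hfu
      refine ⟨Function.update f v y, fun w hw => ?_, fun a ha b hb hab => ?_⟩
      · by_cases hwv : w = v
        · subst hwv; simp [hy, hyB]
        · rw [Function.update_of_ne hwv]
          have := hf1 w (mem_erase.2 ⟨hwv, hw⟩)
          refine ⟨this.1, fun hbad => this.2 ?_⟩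
          by_cases hwu : w = u
          · subst hwu; rw [hB'u]; exact Or.inl hbad
          · rw [hB'w w hwu]; exact hbad
      · by_cases hav : a = v
        · subst hav
          have : b = u := hleaf b hb u hu hab hvu
          subst this
          rw [Function.update_self, Function.update_of_ne huv]
          exact hR _ _ hRy
        · by_cases hbv : b = v
          · subst hbv
            have : a = u := hleaf a ha u hu hab.symm hvu
            subst this
            rw [Function.update_self, Function.update_of_ne huv]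
            exact hRy
          · rw [Function.update_of_ne hav, Function.update_of_ne hbv]
            exact hf2 a (mem_erase.2 ⟨hav, ha⟩) b (mem_erase.2 ⟨hbv, hb⟩) hab
    · push Not at hnb
      obtain ⟨f, hf1, hf2⟩ := ih (s.erase v) (erase_ssubset hv) Bad (by
        have := hnn v (Bad v)
        rw [hcard]; nlinarith)
      have hlt : ∑ x ∈ (Om v).filter (fun x => x ∈ Bad v), nu v x < ∑ x ∈ Om v, nu v x := by
        have h0 : 0 ≤ ∑ w ∈ s.erase v, ∑ x ∈ (Om w).filter (fun x => x ∈ Bad w), nu w x :=
          sum_nonneg fun w _ => hnn w _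
        have h1 : 0 ≤ (s.card : ℝ) * eta := by positivity
        have := hom v
        linarith
      obtain ⟨y, hy, hyB⟩ : ∃ y ∈ Om v, y ∉ Bad v := by
        by_contra hcon
        push Not at hcon
        rw [filter_true_of_mem hcon] at hlt
        exact lt_irrefl _ hlt
      refine ⟨Function.update f v y, fun w hw => ?_, fun a ha b hb hab => ?_⟩
      · by_cases hwv : w = v
        · subst hwv; simp [hy, hyB]
        · rw [Function.update_of_ne hwv]
          exact hf1 w (mem_erase.2 ⟨hwv, hw⟩)
      · by_cases hav : a = v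
        · subst hav; exact absurd hab (hnb b hb)
        · by_cases hbv : b = v
          · subst hbv; exact absurd hab.symm (hnb a ha)
          · rw [Function.update_of_ne hav, Function.update_of_ne hbv]
            exact hf2 a (mem_erase.2 ⟨hav, ha⟩) b (mem_erase.2 ⟨hbv, hb⟩) hab

end Pool.Agent.Lib.MP_a80a1d_co
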