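import Mathlib

set_option autoImplicit false

namespace Pool.Agent.Lib.MP_a80a1d_co

open Finset

lemma sum_range_mul_split {M : Type*} [AddCommMonoid M] (f : ℕ → M) (N b : ℕ) :
    ∑ j ∈ range (b * N), f j = ∑ d ∈ range b, ∑ j ∈ range N, f (d * N + j) := by
  induction b with
  | zero => simp
  | succ b ih => rw [Nat.succ_mul, sum_range_add, ih, sum_range_succ]

lemma var_lower (x : ℕ → ℝ) (b : ℕ) (d0 : ℕ) (hd : d0 < b) :
    (∑ d ∈ range b, x d) ^ 2 / b + (b * x d0 - ∑ d ∈ range b, x d) ^ 2 / b ^ 2 ≤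
      ∑ d ∈ range b, x d ^ 2 := by
  have hb : (0 : ℝ) < b := by exact_mod_cast (by omega : 0 < b)
  set S := ∑ d ∈ range b, x d with hS
  have h1 : ∑ d ∈ range b, (x d - S / b) ^ 2 = ∑ d ∈ range b, x d ^ 2 - S ^ 2 / b := by
    have : ∀ d, (x d - S / b) ^ 2 = x d ^ 2 - 2 * (S / b) * x d + (S / b) ^ 2 := fun d => by ring
    simp only [this, sum_add_distrib, sum_sub_distrib, ← mul_sum, ← hS, sum_const, card_range,
      nsmul_eq_mul]
    field_simp
    ring
  have h2 : (x d0 - S / b) ^ 2 ≤ ∑ d ∈ range b, (x d - S / b) ^ 2 :=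
    single_le_sum (f := fun d => (x d - S / b) ^ 2) (fun d _ => sq_nonneg _) (mem_range.2 hd)
  have h3 : (b * x d0 - S) ^ 2 / b ^ 2 = (x d0 - S / b) ^ 2 := by
    field_simp
  linarith

/-- Energy increment along a `b`-ary tree of index intervals. -/
lemma energy {β : Type*} (Om : Finset β) (D : β → ℝ) (g : ℕ → β → ℝ) (b T : ℕ) (hb : 0 < b)
    (hg0 : ∀ j w, 0 ≤ g j w) (hgD : ∀ j < b ^ T, ∀ w, g j w ≤ D w) (eta C : ℝ) (heta : 0 < eta)
    (hT : b * C ≤ T * eta ^ 2)
    (hmass : (b : ℝ) ^ T * ∑ w ∈ Om, D w < C * ∑ w ∈ Om, ∑ j ∈ range (b ^ T), g j w) :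
    ∃ N s : ℕ, s + b * N ≤ b ^ T ∧ ∀ d < b,
      ∑ w ∈ Om, |b * ∑ j ∈ range N, g (s + (d * N + j)) w - ∑ j ∈ range (b * N), g (s + j) w| <
        eta * ∑ w ∈ Om, ∑ j ∈ range (b * N), g (s + j) w := by
  by_contra hcon
  push Not at hcon
  have hbR : (0 : ℝ) < b := by exact_mod_cast hb
  have hD0 : ∀ w, 0 ≤ D w := fun w => (hg0 0 w).trans (hgD 0 (pow_pos hb T) w)
  set Wt := ∑ w ∈ Om, D w with hWt
  have hWt0 : 0 ≤ Wt := sum_nonneg fun w _ => hD0 w
  set Lam := ∑ w ∈ Om, ∑ j ∈ range (b ^ T), g j w with hLam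
  have hLam0 : 0 ≤ Lam := sum_nonneg fun w _ => sum_nonneg fun j _ => hg0 j w
  have hLamW : Lam ≤ (b : ℝ) ^ T * Wt := by
    rw [hWt, mul_sum]
    refine sum_le_sum fun w _ => ?_
    have := sum_le_card_nsmul (range (b ^ T)) (fun j => g j w) (D w)
      (fun j hj => hgD j (mem_range.1 hj) w)
    simpa using this
  have hBW : 0 ≤ (b : ℝ) ^ T * Wt := by positivity
  have hLampos : 0 < Lam := by
    rcases hLam0.eq_or_lt with h | h
    · rw [← h] at hmass; simp at hmass; linarith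
    · exact h
  have hWtpos : 0 < Wt := by
    have : 0 < (b : ℝ) ^ T * Wt := lt_of_lt_of_le hLampos hLamW
    rcases hWt0.eq_or_lt with h | h
    · rw [← h] at this; simp at this
    · exact h
  set kap := eta ^ 2 / (b * Wt) with hkap
  have hkap0 : 0 ≤ kap := by positivity
  have main : ∀ t s : ℕ, s + b ^ t ≤ b ^ T →
      (∑ w ∈ Om, (∑ j ∈ range (b ^ t), g (s + j) w) ^ 2 / D w +
        t * kap * (∑ w ∈ Om, ∑ j ∈ range (b ^ t), g (s + j) w) ^ 2) / (b : ℝ) ^ t ≤
      ∑ j ∈ range (b ^ t), ∑ w ∈ Om, g (s + j) w ^ 2 / D w := by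
    intro t
    induction t with
    | zero => intro s _; simp
    | succ t ih =>
      intro s hs
      rw [pow_succ' b t] at hs ⊢
      set N := b ^ t with hN
      obtain ⟨d0, hd0, hbig⟩ := hcon N s hs
      set G : ℕ → β → ℝ := fun d w => ∑ j ∈ range N, g (s + (d * N + j)) w with hG
      have hsplit : ∀ w, ∑ j ∈ range (b * N), g (s + j) w = ∑ d ∈ range b, G d w :=
        fun w => sum_range_mul_split (fun j => g (s + j) w) N b
      simp only [hsplit] at hbig ⊢
      rw [sum_range_mul_split (fun j => ∑ w ∈ Om, g (s + j) w ^ 2 / D w) N b]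
      have hih : ∀ d ∈ range b,
          (∑ w ∈ Om, G d w ^ 2 / D w + t * kap * (∑ w ∈ Om, G d w) ^ 2) / (b : ℝ) ^ t ≤
          ∑ j ∈ range N, ∑ w ∈ Om, g (s + (d * N + j)) w ^ 2 / D w := by
        intro d hd
        have hd' := mem_range.1 hd
        have := ih (s + d * N) (by nlinarith)
        simpa only [add_assoc] using this
      refine le_trans ?_ (sum_le_sum hih)
      rw [← sum_div, sum_add_distrib, ← mul_sum]
      set M := ∑ w ∈ Om, ∑ d ∈ range b, G d w with hM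
      have hM0 : 0 ≤ M := sum_nonneg fun w _ => sum_nonneg fun d _ => sum_nonneg fun j _ => hg0 _ _
      have hA : (∑ w ∈ Om, (∑ d ∈ range b, G d w) ^ 2 / D w) / b +
          (∑ w ∈ Om, (b * G d0 w - ∑ d ∈ range b, G d w) ^ 2 / D w) / b ^ 2 ≤
          ∑ d ∈ range b, ∑ w ∈ Om, G d w ^ 2 / D w := by
        rw [sum_comm, sum_div, sum_div, ← sum_add_distrib]
        refine sum_le_sum fun w _ => ?_
        have := var_lower (fun d => G d w) b d0 hd0
        rw [← sum_div]
        have h2 := div_le_div_of_nonneg_right this (hD0 w)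
        refine le_trans (le_of_eq ?_) h2
        ring
      have hB : M ^ 2 / b ≤ ∑ d ∈ range b, (∑ w ∈ Om, G d w) ^ 2 := by
        have := var_lower (fun d => ∑ w ∈ Om, G d w) b d0 hd0
        rw [hM, sum_comm]
        have h2 : 0 ≤ (b * ∑ w ∈ Om, G d0 w - ∑ d ∈ range b, ∑ w ∈ Om, G d w) ^ 2 / (b : ℝ) ^ 2 := by
          positivity
        linarith
      have hCS : (∑ w ∈ Om, |b * G d0 w - ∑ d ∈ range b, G d w|) ^ 2 ≤
          Wt * ∑ w ∈ Om, (b * G d0 w - ∑ d ∈ range b, G d w) ^ 2 / D w := by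
        refine sum_sq_le_sum_mul_sum_of_sq_le_mul Om (fun w _ => hD0 w)
          (fun w _ => div_nonneg (sq_nonneg _) (hD0 w)) fun w _ => le_of_eq ?_
        rw [sq_abs]
        rcases (hD0 w).eq_or_lt with h | h
        · have hz : ∀ d < b, G d w = 0 := fun d hd => sum_eq_zero fun j hj => by
            have hj' := mem_range.1 hj
            have := hgD (s + (d * N + j)) (by nlinarith) w
            have := hg0 (s + (d * N + j)) w
            linarith
          rw [hz d0 hd0, sum_eq_zero fun d hd => hz d (mem_range.1 hd)]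
          simp
        · field_simp
      have hsq : (eta * M) ^ 2 ≤ (∑ w ∈ Om, |b * G d0 w - ∑ d ∈ range b, G d w|) ^ 2 :=
        pow_le_pow_left₀ (by positivity) hbig 2
      set Q1 := ∑ w ∈ Om, (b * G d0 w - ∑ d ∈ range b, G d w) ^ 2 / D w with hQ1
      have hC : kap * M ^ 2 / b ≤ Q1 / b ^ 2 := by
        rw [hkap, div_le_div_iff₀ hbR (by positivity)]
        have : eta ^ 2 / (b * Wt) * M ^ 2 * b ^ 2 = (eta * M) ^ 2 / Wt * b := by
          field_simp
        rw [this]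
        refine mul_le_mul_of_nonneg_right ?_ hbR.le
        rw [div_le_iff₀ hWtpos]
        linarith
      have hbt : (0 : ℝ) < (b : ℝ) ^ t := by positivity
      rw [pow_succ' (b : ℝ) t, ← div_div]
      refine div_le_div_of_nonneg_right ?_ hbt.le
      have hD : t * kap * (M ^ 2 / b) ≤ t * kap * ∑ d ∈ range b, (∑ w ∈ Om, G d w) ^ 2 :=
        mul_le_mul_of_nonneg_left hB (by positivity)
      have hE : (∑ w ∈ Om, (∑ d ∈ range b, G d w) ^ 2 / D w + ((t + 1 : ℕ) : ℝ) * kap * M ^ 2) / b =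
          (∑ w ∈ Om, (∑ d ∈ range b, G d w) ^ 2 / D w) / b + kap * M ^ 2 / b +
            t * kap * (M ^ 2 / b) := by
        push_cast; ring
      rw [hE]
      linarith
  have h1 := main T 0 (by simp)
  simp only [zero_add] at h1
  have h2 : ∑ j ∈ range (b ^ T), ∑ w ∈ Om, g j w ^ 2 / D w ≤ Lam := by
    rw [hLam, sum_comm]
    refine sum_le_sum fun w _ => sum_le_sum fun j hj => ?_
    rcases (hD0 w).eq_or_lt with h | h
    · rw [← h]; simp [hg0]
    · rw [div_le_iff₀ h]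
      have := hgD j (mem_range.1 hj) w
      have := hg0 j w
      nlinarith
  have h3 : 0 ≤ ∑ w ∈ Om, (∑ j ∈ range (b ^ T), g j w) ^ 2 / D w :=
    sum_nonneg fun w _ => div_nonneg (sq_nonneg _) (hD0 w)
  have hbT : (0 : ℝ) < (b : ℝ) ^ T := by positivity
  rw [← hLam, div_le_iff₀ hbT] at h1
  have h4 : T * kap * Lam ^ 2 ≤ Lam * (b : ℝ) ^ T := by nlinarith
  have h5 : T * kap * Lam ≤ (b : ℝ) ^ T := by
    have : Lam * (T * kap * Lam) ≤ Lam * (b : ℝ) ^ T := by nlinarith
    exact le_of_mul_le_mul_left this hLampos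
  have h6 : T * eta ^ 2 * Lam ≤ b * ((b : ℝ) ^ T * Wt) := by
    have : T * eta ^ 2 * Lam = (T * kap * Lam) * (b * Wt) := by
      rw [hkap]; field_simp
    rw [this]
    calc (T * kap * Lam) * (b * Wt) ≤ (b : ℝ) ^ T * (b * Wt) :=
          mul_le_mul_of_nonneg_right h5 (by positivity)
      _ = _ := by ring
  have h7 : b * ((b : ℝ) ^ T * Wt) < b * (C * Lam) := mul_lt_mul_of_pos_left hmass hbR
  have h8 : b * C * Lam ≤ T * eta ^ 2 * Lam := mul_le_mul_of_nonneg_right hT hLam0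
  nlinarith

end Pool.Agent.Lib.MP_a80a1d_co
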