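import Mathlib
import Pool.Agent.Lib.MP_a80a1d_co.Energy

set_option autoImplicit false

namespace Pool.Agent.Lib.MP_a80a1d_co

open Finset

lemma count_prod (m : ℕ) (hm : 0 < m) (L : ℕ) : ∀ phi : ℕ → ℕ → ℝ, (∀ k z, 0 ≤ phi k z) →
    (∀ k p, ∑ d ∈ range m, phi k (p * m + d) ≤ 2) →
    ∑ y ∈ range (m ^ L), ∏ k ∈ range L, phi k (y / m ^ k) ≤ 2 ^ L := by
  induction L with
  | zero => intro phi _ _; simp
  | succ L ih =>
    intro phi h0 h2
    rw [pow_succ, sum_range_mul_split]
    have key : ∀ p ∈ range (m ^ L), ∑ d ∈ range m, ∏ k ∈ range (L + 1), phi k ((p * m + d) / m ^ k) ≤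
        2 * ∏ k ∈ range L, phi (k + 1) (p / m ^ k) := by
      intro p _
      have : ∀ d ∈ range m, ∏ k ∈ range (L + 1), phi k ((p * m + d) / m ^ k) =
          phi 0 (p * m + d) * ∏ k ∈ range L, phi (k + 1) (p / m ^ k) := by
        intro d hd
        rw [prod_range_succ', mul_comm]
        congr 1
        · simp
        · refine prod_congr rfl fun k _ => ?_
          congr 1
          rw [pow_succ', ← Nat.div_div_eq_div_mul]
          congr 1
          rw [mul_comm, Nat.mul_add_div hm, Nat.div_eq_of_lt (mem_range.1 hd), add_zero]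
      rw [sum_congr rfl this, ← sum_mul]
      exact mul_le_mul_of_nonneg_right (h2 0 p) (prod_nonneg fun k _ => h0 _ _)
    refine (sum_le_sum key).trans ?_
    rw [← mul_sum, pow_succ']
    exact mul_le_mul_of_nonneg_left (ih (fun k => phi (k + 1)) (fun k z => h0 _ _)
      (fun k p => h2 _ _)) (by norm_num)

open Classical in
/-- Some level carries a fixed share of unusual weight. -/
lemma level_exists (a u q L : ℕ) (ha : 0 < a) (hu : 0 < u) (hq : 0 < q) (hL : 0 < L)
    (X : Finset ℕ) (W : ℕ → ℕ → ℝ) (hW0 : ∀ x y, 0 ≤ W x y) (hW1 : ∀ x y, W x y ≤ 1)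
    (U : ℕ → ℕ → ℕ → Prop)
    (hU : ∀ k x p, #{d ∈ range (u ^ q) | U k x (p * u ^ q + d)} ≤ a)
    (htot : 2 * (X.card * (2 * a * u : ℝ) ^ L) < ∑ x ∈ X, ∑ y ∈ range ((u ^ q) ^ L), W x y) :
    ∃ k < L, ∑ x ∈ X, ∑ y ∈ range ((u ^ q) ^ L), W x y <
      2 * q * ∑ x ∈ X, ∑ y ∈ range ((u ^ q) ^ L),
        if U k x (y / (u ^ q) ^ k) then 0 else W x y := by
  by_contra hcon
  push Not at hcon
  set m := u ^ q with hmdef
  have hm : 0 < m := pow_pos hu q
  have haR : (0 : ℝ) < a := by exact_mod_cast ha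
  have hmR : (0 : ℝ) < m := by exact_mod_cast hm
  have huR : (1 : ℝ) ≤ u := by exact_mod_cast hu
  have hLR : (0 : ℝ) < L := by exact_mod_cast hL
  have hqR : (0 : ℝ) < q := by exact_mod_cast hq
  set tot := ∑ x ∈ X, ∑ y ∈ range (m ^ L), W x y with htotdef
  let phi : ℕ → ℕ → ℕ → ℝ := fun x k z => if U k x z then 1 / a else 1 / m
  have hphi0 : ∀ x k z, 0 ≤ phi x k z := fun x k z => by
    simp only [phi]; split_ifs <;> positivity
  have hphi2 : ∀ x k p, ∑ d ∈ range m, phi x k (p * m + d) ≤ 2 := by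
    intro x k p
    simp only [phi]
    rw [sum_ite, sum_const, sum_const, nsmul_eq_mul, nsmul_eq_mul]
    have h1 : ((#{d ∈ range m | U k x (p * m + d)} : ℕ) : ℝ) ≤ a := by exact_mod_cast hU k x p
    have h2 : ((#{d ∈ range m | ¬ U k x (p * m + d)} : ℕ) : ℝ) ≤ m := by
      have := card_filter_le (range m) (fun d => ¬ U k x (p * m + d))
      rw [card_range] at this
      exact_mod_cast this
    have h3 : ((#{d ∈ range m | U k x (p * m + d)} : ℕ) : ℝ) * (1 / a) ≤ 1 := by
      rw [mul_one_div, div_le_one haR]; exact h1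
    have h4 : ((#{d ∈ range m | ¬ U k x (p * m + d)} : ℕ) : ℝ) * (1 / m) ≤ 1 := by
      rw [mul_one_div, div_le_one hmR]; exact h2
    linarith
  have hpt : ∀ x y, W x y ≤ (a * u : ℝ) ^ L * ∏ k ∈ range L, phi x k (y / m ^ k) +
      q / L * ∑ k ∈ range L, if U k x (y / m ^ k) then 0 else W x y := by
    intro x y
    set h := #{k ∈ range L | ¬ U k x (y / m ^ k)} with hh
    have hsum : (∑ k ∈ range L, if U k x (y / m ^ k) then 0 else W x y) = h * W x y := by
      rw [sum_ite, sum_const, sum_const, nsmul_eq_mul, nsmul_eq_mul]; simp [hh]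
    have hP0 : 0 ≤ (a * u : ℝ) ^ L * ∏ k ∈ range L, phi x k (y / m ^ k) :=
      mul_nonneg (by positivity) (prod_nonneg fun k _ => hphi0 _ _ _)
    rw [hsum]
    by_cases hc : q * h ≤ L
    · have h1 : (1 : ℝ) ≤ (a * u : ℝ) ^ L * ∏ k ∈ range L, phi x k (y / m ^ k) := by
        have e1 : (a : ℝ) ^ L * ∏ k ∈ range L, phi x k (y / m ^ k) =
            ∏ k ∈ range L, (a * phi x k (y / m ^ k)) := by
          rw [prod_mul_distrib, prod_const, card_range]
        have e2 : ∏ k ∈ range L, (if U k x (y / m ^ k) then (1 : ℝ) else 1 / m) ≤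
            ∏ k ∈ range L, (a * phi x k (y / m ^ k)) := by
          refine prod_le_prod (fun k _ => by split_ifs <;> positivity) fun k _ => ?_
          simp only [phi]
          split_ifs
          · field_simp; rfl
          · have : (1 : ℝ) ≤ a := by exact_mod_cast ha
            have : (0 : ℝ) < 1 / m := by positivity
            nlinarith
        have e3 : ∏ k ∈ range L, (if U k x (y / m ^ k) then (1 : ℝ) else 1 / m) = (1 / m) ^ h := by
          rw [prod_ite, prod_const, prod_const]; simp [hh]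
        have e4 : (m : ℝ) ^ h ≤ (u : ℝ) ^ L := by
          rw [hmdef]; push_cast; rw [← pow_mul]
          exact pow_le_pow_right₀ huR hc
        have e5 : (1 : ℝ) ≤ (u : ℝ) ^ L * (1 / m) ^ h := by
          rw [one_div, inv_pow, ← div_eq_mul_inv, le_div_iff₀ (by positivity)]; linarith
        calc (1 : ℝ) ≤ (u : ℝ) ^ L * (1 / m) ^ h := e5
          _ ≤ (u : ℝ) ^ L * ((a : ℝ) ^ L * ∏ k ∈ range L, phi x k (y / m ^ k)) := by
            rw [e1, ← e3]; exact mul_le_mul_of_nonneg_left e2 (by positivity)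
          _ = _ := by rw [mul_pow]; ring
      have h2 : 0 ≤ (q : ℝ) / L * (h * W x y) := by have := hW0 x y; positivity
      have := hW1 x y
      linarith
    · push Not at hc
      have h1 : (L : ℝ) ≤ q * h := by exact_mod_cast hc.le
      have h2 : W x y ≤ (q : ℝ) / L * (h * W x y) := by
        rw [div_mul_eq_mul_div, le_div_iff₀ hLR]
        have := hW0 x y
        nlinarith
      linarith
  have hsum : tot ≤ X.card * (2 * a * u : ℝ) ^ L + q / L * ∑ k ∈ range L, ∑ x ∈ X,
      ∑ y ∈ range (m ^ L), if U k x (y / m ^ k) then 0 else W x y := by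
    refine (sum_le_sum fun x _ => sum_le_sum fun y _ => hpt x y).trans ?_
    simp only [sum_add_distrib, ← mul_sum]
    refine add_le_add ?_ (le_of_eq ?_)
    · have : ∑ x ∈ X, ∑ y ∈ range (m ^ L), ∏ k ∈ range L, phi x k (y / m ^ k) ≤ X.card * 2 ^ L := by
        have := sum_le_card_nsmul X
          (fun x => ∑ y ∈ range (m ^ L), ∏ k ∈ range L, phi x k (y / m ^ k)) (2 ^ L)
          (fun x _ => count_prod m hm L (phi x) (hphi0 x) (hphi2 x))
        simpa using this
      calc _ ≤ (a * u : ℝ) ^ L * (X.card * 2 ^ L) := mul_le_mul_of_nonneg_left this (by positivity)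
        _ = _ := by rw [mul_assoc 2, mul_pow 2]; ring
    · congr 1
      rw [sum_comm (s := range L)]
      exact sum_congr rfl fun x _ => sum_comm
  have hlev : 2 * q * ∑ k ∈ range L, ∑ x ∈ X,
      ∑ y ∈ range (m ^ L), (if U k x (y / m ^ k) then 0 else W x y) ≤ L * tot := by
    rw [mul_sum]
    have := sum_le_card_nsmul (range L) (fun k => 2 * q * ∑ x ∈ X,
      ∑ y ∈ range (m ^ L), (if U k x (y / m ^ k) then 0 else W x y)) tot
      (fun k hk => hcon k (mem_range.1 hk))
    simpa using this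
  set S := ∑ k ∈ range L, ∑ x ∈ X,
      ∑ y ∈ range (m ^ L), (if U k x (y / m ^ k) then 0 else W x y) with hS
  have : 2 * (q / L * S) ≤ tot := by
    rw [show 2 * (q / L * S) = 2 * q * S / L by ring, div_le_iff₀ hLR]; linarith
  linarith

end Pool.Agent.Lib.MP_a80a1d_co
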