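import Mathlib
import Pool.Agent.Lib.MP_a80a1d_co.Levels

set_option autoImplicit false

namespace Pool.Agent.Lib.MP_a80a1d_co

open Finset

/-- Total of `f` over the block of `m ^ k` positions number `z`. -/
noncomputable def nw (m : ℕ) (f : ℕ → ℝ) (k z : ℕ) : ℝ := ∑ j ∈ range (m ^ k), f (z * m ^ k + j)

lemma nw_nonneg (m : ℕ) (f : ℕ → ℝ) (hf : ∀ y, 0 ≤ f y) (k z : ℕ) : 0 ≤ nw m f k z :=
  sum_nonneg fun _ _ => hf _

lemma nw_succ (m : ℕ) (f : ℕ → ℝ) (k p : ℕ) :
    nw m f (k + 1) p = ∑ d ∈ range m, nw m f k (p * m + d) := by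
  unfold nw
  rw [pow_succ', sum_range_mul_split]
  refine sum_congr rfl fun d _ => sum_congr rfl fun j _ => ?_
  congr 1; ring

lemma sum_pow_split (m : ℕ) (f : ℕ → ℝ) (e k : ℕ) :
    ∑ y ∈ range (m ^ (e + k)), f y = ∑ p ∈ range (m ^ e), nw m f k p := by
  rw [pow_add, sum_range_mul_split]; rfl

lemma block_div (m k z j : ℕ) (hm : 0 < m) (hj : j < m ^ k) : (z * m ^ k + j) / m ^ k = z := by
  rw [mul_comm, Nat.mul_add_div (pow_pos hm k), Nat.div_eq_of_lt hj, add_zero]

lemma nw_ite (m : ℕ) (hm : 0 < m) (f : ℕ → ℝ) (k z : ℕ) (P : ℕ → Prop) [DecidablePred P] :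
    nw m (fun y => if P (y / m ^ k) then 0 else f y) k z = if P z then 0 else nw m f k z := by
  unfold nw
  split_ifs with h
  · exact sum_eq_zero fun j hj => by simp only [block_div m k z j hm (mem_range.1 hj), if_pos h]
  · exact sum_congr rfl fun j hj => by simp only [block_div m k z j hm (mem_range.1 hj), if_neg h]

lemma sum_Ico_block (m : ℕ) (f : ℕ → ℝ) (k z : ℕ) :
    ∑ y ∈ Ico (z * m ^ k) (z * m ^ k + m ^ k), f y = nw m f k z := by
  rw [sum_Ico_eq_sum_range]; simp [nw]

open Classical in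
lemma homog (a u q L : ℕ) (ha : 0 < a) (hu : 0 < u) (hq : 0 < q) (hL : 0 < L)
    (X : Finset ℕ) (W : ℕ → ℕ → ℝ) (hW0 : ∀ x y, 0 ≤ W x y) (hW1 : ∀ x y, W x y ≤ 1)
    (mu : ℕ → ℝ) (hmu : ∀ y, 0 ≤ mu y) (hmupos : 0 < ∑ y ∈ range ((u ^ q) ^ L), mu y)
    (htot : 2 * (X.card * (2 * a * u : ℝ) ^ L) < ∑ x ∈ X, ∑ y ∈ range ((u ^ q) ^ L), W x y) :
    ∃ (Y : ℕ → Finset ℕ) (W' : ℕ → ℕ → ℝ) (t : ℕ → ℝ),
      (∀ i i', i < i' → i' < a → ∀ y ∈ Y i, ∀ y' ∈ Y i', y < y') ∧
      (∀ x y, 0 ≤ W' x y) ∧ (∀ x y, W' x y ≤ W x y) ∧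
      (∀ x, ∀ i < a, ∑ y ∈ Y i, W' x y = t x) ∧
      (∑ x ∈ X, ∑ y ∈ range ((u ^ q) ^ L), W x y) * ∑ i ∈ range a, ∑ y ∈ Y i, mu y <
        16 * q ^ 2 * ((u ^ q : ℕ) : ℝ) ^ (a + 1) * (∑ y ∈ range ((u ^ q) ^ L), mu y) *
          ∑ x ∈ X, t x := by
  set m := u ^ q with hmdef
  have hm : 0 < m := pow_pos hu q
  have hmR : (0 : ℝ) < m := by exact_mod_cast hm
  have hqR : (0 : ℝ) < q := by exact_mod_cast hq
  set gam : ℝ := 1 / (4 * q * m) with hgam
  have hgam0 : 0 < gam := by positivity
  let big : ℕ → ℕ → ℕ → Prop := fun k x z => gam * nw m (W x) (k + 1) (z / m) ≤ nw m (W x) k z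
  let spread : ℕ → ℕ → ℕ → Prop := fun k x p => a ≤ #{d ∈ range m | big k x (p * m + d)}
  have hdiv : ∀ p d, d < m → (p * m + d) / m = p := fun p d hd => by
    rw [mul_comm, Nat.mul_add_div hm, Nat.div_eq_of_lt hd, add_zero]
  obtain ⟨k, hkL, hk⟩ := level_exists a u q L ha hu hq hL X W hW0 hW1
    (fun k x z => big k x z ∧ ¬ spread k x (z / m)) (by
      intro k x p
      by_cases hs : spread k x p
      · refine le_trans (card_le_card (t := ∅) ?_) (by simp)
        intro d hd
        simp only [mem_filter, mem_range] at hd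
        have h := hd.2
        rw [hdiv p d hd.1] at h
        exact absurd hs h.2
      · refine le_trans (card_le_card ?_) (not_le.1 hs).le
        intro d hd
        simp only [mem_filter] at hd ⊢
        exact ⟨hd.1, hd.2.1⟩) htot
  obtain ⟨e, rfl⟩ : ∃ e, L = e + (k + 1) := ⟨L - (k + 1), by omega⟩
  rw [← hmdef] at hk
  set tot := ∑ x ∈ X, ∑ y ∈ range (m ^ (e + (k + 1))), W x y with htotdef
  set mutot := ∑ y ∈ range (m ^ (e + (k + 1))), mu y with hmutot
  have htot' : tot = ∑ x ∈ X, ∑ p ∈ range (m ^ e), nw m (W x) (k + 1) p :=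
    sum_congr rfl fun x _ => sum_pow_split m (W x) e (k + 1)
  have hmutot' : mutot = ∑ p ∈ range (m ^ e), nw m mu (k + 1) p := sum_pow_split m mu e (k + 1)
  let good : ℕ → ℕ → (Fin a → Fin m) → Prop := fun x p s =>
    StrictMono s ∧ ∀ i, big k x (p * m + s i)
  have hnw0 : ∀ x k z, 0 ≤ nw m (W x) k z := fun x k z => nw_nonneg m _ (hW0 x) k z
  -- unusual weight inside one parent block
  have hblock : ∀ x p, nw m (fun y => if big k x (y / m ^ k) ∧ ¬ spread k x (y / m ^ k / m)
      then 0 else W x y) (k + 1) p ≤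
      (∑ s : Fin a → Fin m, if good x p s then nw m (W x) (k + 1) p else 0) +
        1 / (4 * q) * nw m (W x) (k + 1) p := by
    intro x p
    rw [nw_succ]
    have e1 : ∀ d ∈ range m, nw m (fun y => if big k x (y / m ^ k) ∧ ¬ spread k x (y / m ^ k / m)
        then 0 else W x y) k (p * m + d) =
        if big k x (p * m + d) ∧ ¬ spread k x p then 0 else nw m (W x) k (p * m + d) := by
      intro d hd
      rw [nw_ite m hm (W x) k (p * m + d) (fun z => big k x z ∧ ¬ spread k x (z / m))]
      simp only [hdiv p d (mem_range.1 hd)]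
    rw [sum_congr rfl e1]
    have hS0 : ∀ s : Fin a → Fin m, 0 ≤ if good x p s then nw m (W x) (k + 1) p else 0 :=
      fun s => by split_ifs; exacts [hnw0 _ _ _, le_rfl]
    have hlast : 0 ≤ 1 / (4 * (q : ℝ)) * nw m (W x) (k + 1) p :=
      mul_nonneg (by positivity) (hnw0 _ _ _)
    by_cases hs : spread k x p
    · obtain ⟨S, hSsub, hScard⟩ := exists_subset_card_eq hs
      have hSm : ∀ i, S.orderEmbOfFin hScard i < m := fun i =>
        mem_range.1 (mem_filter.1 (hSsub (S.orderEmbOfFin_mem hScard i))).1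
      have hgood : good x p (fun i => ⟨S.orderEmbOfFin hScard i, hSm i⟩) :=
        ⟨fun i j hij => (S.orderEmbOfFin hScard).strictMono hij,
          fun i => (mem_filter.1 (hSsub (S.orderEmbOfFin_mem hScard i))).2⟩
      have h1 := single_le_sum (f := fun s : Fin a → Fin m =>
        if good x p s then nw m (W x) (k + 1) p else 0) (fun s _ => hS0 s)
        (mem_univ (fun i => ⟨S.orderEmbOfFin hScard i, hSm i⟩))
      simp only [if_pos hgood] at h1
      have h2 : ∑ d ∈ range m, (if big k x (p * m + d) ∧ ¬ spread k x p then 0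
          else nw m (W x) k (p * m + d)) = nw m (W x) (k + 1) p := by
        rw [nw_succ]
        exact sum_congr rfl fun d _ => if_neg fun h => h.2 hs
      linarith
    · have h1 : 0 ≤ ∑ s : Fin a → Fin m, if good x p s then nw m (W x) (k + 1) p else 0 :=
        sum_nonneg fun s _ => hS0 s
      have h2 : ∑ d ∈ range m, (if big k x (p * m + d) ∧ ¬ spread k x p then 0
          else nw m (W x) k (p * m + d)) ≤ m * (gam * nw m (W x) (k + 1) p) := by
        have := sum_le_card_nsmul (range m) (fun d => if big k x (p * m + d) ∧ ¬ spread k x p then 0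
          else nw m (W x) k (p * m + d)) (gam * nw m (W x) (k + 1) p) (fun d hd => by
            split_ifs with h
            · exact mul_nonneg hgam0.le (hnw0 _ _ _)
            · have hb : ¬ big k x (p * m + d) := fun hb => h ⟨hb, hs⟩
              simp only [big, hdiv p d (mem_range.1 hd), not_le] at hb
              exact hb.le)
        simpa using this
      have h3 : m * (gam * nw m (W x) (k + 1) p) = 1 / (4 * q) * nw m (W x) (k + 1) p := by
        rw [hgam]; field_simp
      linarith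
  let mass : ℕ → (Fin a → Fin m) → ℝ := fun p s =>
    ∑ x ∈ X, if good x p s then nw m (W x) (k + 1) p else 0
  have hmass : tot < 4 * q * ∑ p ∈ range (m ^ e), ∑ s : Fin a → Fin m, mass p s := by
    have h1 : ∑ x ∈ X, ∑ y ∈ range (m ^ (e + (k + 1))),
        (if big k x (y / m ^ k) ∧ ¬ spread k x (y / m ^ k / m) then 0 else W x y) ≤
        ∑ p ∈ range (m ^ e), ∑ s : Fin a → Fin m, mass p s + 1 / (4 * q) * tot := by
      have h2 : ∑ p ∈ range (m ^ e), ∑ s : Fin a → Fin m, mass p s =
          ∑ x ∈ X, ∑ p ∈ range (m ^ e), ∑ s : Fin a → Fin m,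
            if good x p s then nw m (W x) (k + 1) p else 0 := by
        rw [sum_comm (s := X)]
        exact sum_congr rfl fun p _ => sum_comm
      rw [h2, htot', mul_sum, ← sum_add_distrib]
      refine sum_le_sum fun x _ => ?_
      rw [sum_pow_split, mul_sum, ← sum_add_distrib]
      exact sum_le_sum fun p _ => hblock x p
    have h3 : 2 * q * (1 / (4 * q) * tot) = tot / 2 := by field_simp; ring
    have h4 := mul_le_mul_of_nonneg_left h1 (by positivity : (0 : ℝ) ≤ 2 * q)
    rw [mul_add, h3] at h4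
    have hk' : tot < 2 * q * ∑ x ∈ X, ∑ y ∈ range (m ^ (e + (k + 1))),
        (if big k x (y / m ^ k) ∧ ¬ spread k x (y / m ^ k / m) then 0 else W x y) := by
      convert hk
    linarith
  have htot0 : 0 ≤ tot := sum_nonneg fun x _ => sum_nonneg fun y _ => hW0 x y
  obtain ⟨p, s, hps⟩ : ∃ p s, tot * nw m mu (k + 1) p < 4 * q * (m : ℝ) ^ a * mutot * mass p s := by
    by_contra hcon
    push Not at hcon
    have h1 : ∑ p ∈ range (m ^ e), ∑ s : Fin a → Fin m, 4 * q * (m : ℝ) ^ a * mutot * mass p s ≤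
        ∑ p ∈ range (m ^ e), ∑ s : Fin a → Fin m, tot * nw m mu (k + 1) p :=
      sum_le_sum fun p _ => sum_le_sum fun s _ => hcon p s
    simp only [← mul_sum, sum_const, card_univ, Fintype.card_pi, Fintype.card_fin, prod_const,
      nsmul_eq_mul, ← hmutot'] at h1
    push_cast at h1
    have h2 : (0 : ℝ) < (m : ℝ) ^ a * mutot := by positivity
    have h3 := mul_lt_mul_of_pos_left hmass h2
    nlinarith
  have hmu0 : 0 ≤ tot * nw m mu (k + 1) p := mul_nonneg htot0 (nw_nonneg m mu hmu _ _)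
  have hmono : StrictMono s := by
    by_contra hs
    have : mass p s = 0 := sum_eq_zero fun x _ => if_neg fun h => hs h.1
    rw [this, mul_zero] at hps
    linarith
  let sg : ℕ → ℕ := fun i => if h : i < a then s ⟨i, h⟩ else 0
  have hsg : ∀ i (h : i < a), sg i = s ⟨i, h⟩ := fun i h => dif_pos h
  have hsglt : ∀ i i', i < i' → i' < a → sg i < sg i' := by
    intro i i' h1 h2
    rw [hsg i (h1.trans h2), hsg i' h2]
    exact hmono (show (⟨i, h1.trans h2⟩ : Fin a) < ⟨i', h2⟩ from h1)
  refine ⟨fun i => Ico ((p * m + sg i) * m ^ k) ((p * m + sg i) * m ^ k + m ^ k),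
    fun x y => if good x p s then
      W x y * min 1 (gam * nw m (W x) (k + 1) p / nw m (W x) k (y / m ^ k)) else 0,
    fun x => if good x p s then gam * nw m (W x) (k + 1) p else 0, ?_, ?_, ?_, ?_, ?_⟩
  · intro i i' h1 h2 y hy y' hy'
    have h3 := hsglt i i' h1 h2
    rw [mem_Ico] at hy hy'
    have : (p * m + sg i + 1) * m ^ k ≤ (p * m + sg i') * m ^ k :=
      Nat.mul_le_mul_right _ (by omega)
    nlinarith [hy.2, hy'.1]
  · intro x y
    beta_reduce
    split_ifs
    · refine mul_nonneg (hW0 x y) (le_min zero_le_one (div_nonneg ?_ (hnw0 _ _ _)))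
      exact mul_nonneg hgam0.le (hnw0 _ _ _)
    · exact le_rfl
  · intro x y
    beta_reduce
    split_ifs
    · exact mul_le_of_le_one_right (hW0 x y) (min_le_left _ _)
    · exact hW0 x y
  · intro x i hi
    by_cases hg : good x p s
    · simp only [if_pos hg]
      have hb := hg.2 ⟨i, hi⟩
      rw [← hsg i hi] at hb
      have hlt : sg i < m := by rw [hsg i hi]; exact (s ⟨i, hi⟩).2
      simp only [big, hdiv p (sg i) hlt] at hb
      set z := p * m + sg i with hz
      set c := gam * nw m (W x) (k + 1) p with hc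
      have hc0 : 0 ≤ c := mul_nonneg hgam0.le (hnw0 _ _ _)
      have e1 : ∑ y ∈ Ico (z * m ^ k) (z * m ^ k + m ^ k),
          W x y * min 1 (c / nw m (W x) k (y / m ^ k)) =
          ∑ y ∈ Ico (z * m ^ k) (z * m ^ k + m ^ k), W x y * min 1 (c / nw m (W x) k z) := by
        refine sum_congr rfl fun y hy => ?_
        rw [mem_Ico] at hy
        have : y / m ^ k = z := by
          obtain ⟨j, rfl⟩ := Nat.exists_eq_add_of_le hy.1
          exact block_div m k z j hm (by omega)
        rw [this]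
      rw [e1, ← sum_mul, sum_Ico_block]
      rcases (hnw0 x k z).eq_or_lt with h | h
      · rw [← h] at hb ⊢
        rw [zero_mul]; linarith
      · rw [min_eq_right ((div_le_one h).2 hb)]
        field_simp
    · simp only [if_neg hg, sum_const_zero]
  · have h1 : ∑ i ∈ range a, ∑ y ∈ Ico ((p * m + sg i) * m ^ k) ((p * m + sg i) * m ^ k + m ^ k),
        mu y ≤ nw m mu (k + 1) p := by
      simp only [sum_Ico_block]
      rw [nw_succ]
      have hinj : Set.InjOn sg (range a : Set ℕ) := by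
        intro i hi j hj hij
        simp only [coe_range, Set.mem_Iio] at hi hj
        rcases lt_trichotomy i j with h | h | h
        · exact absurd hij (hsglt i j h hj).ne
        · exact h
        · exact absurd hij (hsglt j i h hi).ne'
      rw [← sum_image (f := fun d => nw m mu k (p * m + d)) hinj]
      refine sum_le_sum_of_subset_of_nonneg ?_ fun d _ _ => nw_nonneg m mu hmu _ _
      intro d hd
      obtain ⟨i, hi, rfl⟩ := mem_image.1 hd
      rw [mem_range, hsg i (mem_range.1 hi)]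
      exact (s _).2
    have h2 : ∑ x ∈ X, (if good x p s then gam * nw m (W x) (k + 1) p else 0) = gam * mass p s := by
      simp only [mass, mul_sum, mul_ite, mul_zero]
    rw [h2]
    have h3 : 16 * q ^ 2 * (m : ℝ) ^ (a + 1) * mutot * (gam * mass p s) =
        4 * q * (m : ℝ) ^ a * mutot * mass p s := by
      rw [hgam]; field_simp; ring
    rw [h3]
    exact lt_of_le_of_lt (mul_le_mul_of_nonneg_left h1 htot0) hps

end Pool.Agent.Lib.MP_a80a1d_co
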