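import Mathlib
import Pool.Agent.Lib.MP_a80a1d_co.Homog
import Pool.Agent.Lib.MP_a80a1d_co.Embed

set_option autoImplicit false

namespace Pool.Agent.Lib.MP_a80a1d_co

open Finset

lemma homog' (a : ℕ) (ha : 0 < a) (eps : ℝ) (heps : 0 < eps) : ∃ C : ℝ, 1 ≤ C ∧
    ∀ (n : ℕ) (X : Finset ℕ) (W : ℕ → ℕ → ℝ) (mu : ℕ → ℝ), (∀ x y, 0 ≤ W x y) →
      (∀ x y, W x y ≤ 1) → (∀ y, 0 ≤ mu y) → 0 < ∑ y ∈ range n, mu y →
      C * X.card * (n : ℝ) ^ eps < ∑ x ∈ X, ∑ y ∈ range n, W x y →
      ∃ (Y : ℕ → Finset ℕ) (W' : ℕ → ℕ → ℝ) (t : ℕ → ℝ), (∀ i, Y i ⊆ range n) ∧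
        (∀ i i', i < i' → i' < a → ∀ y ∈ Y i, ∀ y' ∈ Y i', y < y') ∧
        (∀ x y, 0 ≤ W' x y) ∧ (∀ x y, W' x y ≤ W x y) ∧
        (∀ x, ∀ i < a, ∑ y ∈ Y i, W' x y = t x) ∧
        (∑ x ∈ X, ∑ y ∈ range n, W x y) * ∑ i ∈ range a, ∑ y ∈ Y i, mu y <
          C * (∑ y ∈ range n, mu y) * ∑ x ∈ X, t x := by
  obtain ⟨q, hq⟩ := exists_nat_gt (2 / eps)
  have hqR : (0 : ℝ) < q := lt_trans (by positivity) hq
  have hq0 : 0 < q := by exact_mod_cast hqR
  set u := 2 * a with hu
  have hu0 : 0 < u := by omega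
  set m := u ^ q with hm
  have hm1 : 1 < m := Nat.one_lt_pow hq0.ne' (by omega)
  have hmR : (1 : ℝ) ≤ m := by exact_mod_cast hm1.le
  have hme : (1 : ℝ) ≤ (m : ℝ) ^ eps := Real.one_le_rpow hmR heps.le
  have hC2 : (0 : ℝ) ≤ 16 * q ^ 2 * (m : ℝ) ^ (a + 1) := by positivity
  refine ⟨2 * (m : ℝ) ^ eps + 16 * q ^ 2 * (m : ℝ) ^ (a + 1), by linarith, ?_⟩
  intro n X W mu hW0 hW1 hmu hmupos htot
  have hn : n ≠ 0 := by rintro rfl; simp at hmupos
  have hnR : (1 : ℝ) ≤ n := by exact_mod_cast Nat.pos_of_ne_zero hn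
  set L := Nat.log m n + 1 with hL
  have hnL : n < m ^ L := Nat.lt_pow_succ_log_self hm1 n
  have hLn : m ^ L ≤ m * n := by
    rw [hL, pow_succ']
    exact Nat.mul_le_mul_left _ (Nat.pow_log_le_self m hn)
  have hcut : ∀ f : ℕ → ℝ, ∑ y ∈ range (m ^ L), (if y < n then f y else 0) = ∑ y ∈ range n, f y := by
    intro f
    rw [← sum_filter]
    congr 1
    ext y
    simp only [mem_filter, mem_range]
    omega
  have hpow : (2 * a * u : ℝ) ^ L ≤ (m : ℝ) ^ eps * (n : ℝ) ^ eps := by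
    have e1 : (2 * a * u : ℝ) = (u : ℝ) ^ 2 := by rw [hu]; push_cast; ring
    have e2 : (((u : ℝ) ^ 2) ^ L) ^ q = ((m ^ L : ℕ) : ℝ) ^ 2 := by
      rw [hm]; push_cast; ring
    have e3 : ((m ^ L : ℕ) : ℝ) ≤ (m : ℝ) * n := by exact_mod_cast hLn
    have hmn : (1 : ℝ) ≤ (m : ℝ) * n := by nlinarith
    rw [e1, ← Real.mul_rpow (by positivity) (by positivity)]
    refine le_of_pow_le_pow_left₀ hq0.ne' (by positivity) ?_
    rw [e2, ← Real.rpow_natCast (((m : ℝ) * n) ^ eps), ← Real.rpow_mul (by positivity)]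
    calc ((m ^ L : ℕ) : ℝ) ^ 2 ≤ ((m : ℝ) * n) ^ 2 := pow_le_pow_left₀ (by positivity) e3 2
      _ = ((m : ℝ) * n) ^ (2 : ℝ) := by norm_cast
      _ ≤ _ := by
        refine Real.rpow_le_rpow_of_exponent_le hmn ?_
        rw [div_lt_iff₀ heps] at hq
        linarith
  obtain ⟨Y, W', t, h1, h2, h3, h4, h5⟩ := homog a u q L ha hu0 hq0 (by omega) X
    (fun x y => if y < n then W x y else 0)
    (fun x y => by split_ifs; exacts [hW0 x y, le_rfl])
    (fun x y => by split_ifs; exacts [hW1 x y, zero_le_one])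
    (fun y => if y < n then mu y else 0) (fun y => by split_ifs; exacts [hmu y, le_rfl])
    (by rw [← hm, hcut]; exact hmupos) (by
      rw [← hm]
      simp only [hcut]
      refine lt_of_le_of_lt ?_ htot
      have hX : (0 : ℝ) ≤ X.card := by positivity
      have hne : (0 : ℝ) ≤ (n : ℝ) ^ eps := by positivity
      have := mul_le_mul_of_nonneg_left hpow hX
      have := mul_nonneg (mul_nonneg hC2 hX) hne
      nlinarith)
  rw [← hm] at h5
  simp only [hcut] at h5
  have ht0 : ∀ x, 0 ≤ t x := fun x => by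
    rw [← h4 x 0 ha]; exact sum_nonneg fun y _ => h2 x y
  refine ⟨fun i => (Y i).filter (· < n), W', t, fun i y hy => mem_range.2 (mem_filter.1 hy).2,
    fun i i' hi hi' y hy y' hy' => h1 i i' hi hi' y (mem_filter.1 hy).1 y' (mem_filter.1 hy').1,
    h2, fun x y => (h3 x y).trans (by split_ifs; exacts [le_rfl, hW0 x y]), ?_, ?_⟩
  · intro x i hi
    rw [← h4 x i hi, sum_filter]
    refine sum_congr rfl fun y _ => ?_
    split_ifs with h
    · rfl
    · have := h3 x y
      simp only [if_neg h] at this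
      exact le_antisymm (h2 x y) this
  · simp only [sum_filter]
    refine lt_of_lt_of_le h5 ?_
    have : 0 ≤ ∑ x ∈ X, t x := sum_nonneg fun x _ => ht0 x
    refine mul_le_mul_of_nonneg_right (mul_le_mul_of_nonneg_right ?_ hmupos.le) this
    linarith

open Classical in
lemma core (k : ℕ) (F : SimpleGraph (Fin k)) (hF : F.IsAcyclic) (m0 : ℕ)
    (hcut : ∀ i j : Fin k, F.Adj i j → (i.val < m0 ↔ m0 ≤ j.val))
    (E : ℕ → ℕ → Prop) (hE : ∀ x y, E x y → E y x) (Y K : ℕ → Finset ℕ)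
    (w : ℕ → ℕ → ℝ) (t Gt : ℕ → ℝ) (tau del : ℝ)
    (hY : ∀ i i', i < i' → i' < k + 1 → ∀ y ∈ Y i, ∀ y' ∈ Y i', y < y')
    (hK : ∀ i i', i < i' → i' < k + 1 → ∀ y ∈ K i, ∀ y' ∈ K i', y < y')
    (hw0 : ∀ c r, 0 ≤ w c r) (hwE : ∀ c r, w c r ≠ 0 → r < c ∧ E r c)
    (ht : ∀ c, ∀ i < k + 1, ∑ r ∈ Y i, w c r = t c)
    (hG0 : ∀ r, 0 ≤ Gt r) (hG : ∀ i < k + 1, ∑ r ∈ Y i, Gt r = tau)
    (hreg : ∀ i < k + 1, ∀ d < k + 1, ∑ r ∈ Y i, |∑ c ∈ K d, w c r - Gt r| ≤ del)
    (hsmall : (k + 1) * del < tau) :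
    ∃ f : Fin k → ℕ, StrictMono f ∧ (∀ v, (∃ i < k + 1, f v ∈ Y i) ∨ ∃ d < k + 1, f v ∈ K d) ∧
      ∀ u v, F.Adj u v → E (f u) (f v) := by
  have hdel : 0 ≤ del := le_trans (sum_nonneg fun _ _ => abs_nonneg _)
    (hreg 0 (by omega) 0 (by omega))
  have ht0 : ∀ c, 0 ≤ t c := fun c => by
    rw [← ht c 0 (by omega)]; exact sum_nonneg fun r _ => hw0 c r
  have hsub : ∀ i < k + 1, ∀ d < k + 1, ∀ A ⊆ Y i,
      ∑ r ∈ A, Gt r ≤ ∑ r ∈ A, ∑ c ∈ K d, w c r + del ∧
      ∑ r ∈ A, ∑ c ∈ K d, w c r ≤ ∑ r ∈ A, Gt r + del := by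
    intro i hi d hd A hA
    have h1 : ∑ r ∈ A, |∑ c ∈ K d, w c r - Gt r| ≤ del :=
      le_trans (sum_le_sum_of_subset_of_nonneg hA fun _ _ _ => abs_nonneg _) (hreg i hi d hd)
    have h2 := (abs_sum_le_sum_abs (fun r => ∑ c ∈ K d, w c r - Gt r) A).trans h1
    rw [sum_sub_distrib, abs_le] at h2
    constructor <;> linarith [h2.1, h2.2]
  have hKmass : ∀ d < k + 1, tau - del ≤ ∑ c ∈ K d, t c := by
    intro d hd
    have := (hsub 0 (by omega) d hd (Y 0) subset_rfl).1
    rw [hG 0 (by omega), sum_comm] at this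
    simp only [ht _ 0 (by omega)] at this
    linarith
  have hkdel : 0 ≤ (k : ℝ) * del := by positivity
  obtain ⟨c0, hc0, r0, hr0, hw⟩ : ∃ c ∈ K 0, ∃ r ∈ Y k, w c r ≠ 0 := by
    by_contra hcon
    push Not at hcon
    have h1 := hKmass 0 (by omega)
    rw [sum_eq_zero fun c hc => by
      rw [← ht c k (by omega)]; exact sum_eq_zero fun r hr => hcon c hc r hr] at h1
    linarith
  have hr0c0 := (hwE _ _ hw).1
  obtain ⟨f, hf1, hf2⟩ := embed F hF
    (fun v => if v.val < m0 then Y v.val else K (v.val + 1))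
    (fun v => if v.val < m0 then Gt else t)
    (fun v x => by split_ifs; exacts [hG0 x, ht0 x]) E hE del (tau - del) hdel
    (fun v => by
      have := v.2
      split_ifs
      · rw [hG _ (by omega)]; linarith
      · exact hKmass _ (by omega))
    (fun u v huv Bad => by
      have hu := u.2
      have hv := v.2
      have h1 := hcut u v huv
      by_cases hum : u.val < m0
      · have hvm : ¬ v.val < m0 := by have := h1.1 hum; omega
        simp only [if_pos hum, if_neg hvm]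
        refine le_trans (hsub u.val (by omega) (v.val + 1) (by omega) _ (filter_subset _ _)).1
          (add_le_add ?_ le_rfl)
        rw [sum_comm, sum_filter (s := K (v.val + 1))]
        refine sum_le_sum fun c hc => ?_
        split_ifs with hb
        · rw [← ht c u.val (by omega)]
          exact sum_le_sum_of_subset_of_nonneg (filter_subset _ _) fun r _ _ => hw0 c r
        · refine le_of_eq (sum_eq_zero fun r hr => ?_)
          by_contra hne
          exact hb ((mem_filter.1 hr).2 c hc (hwE _ _ hne).2)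
      · have hvm : v.val < m0 := by
          by_contra h
          exact hum (h1.2 (by omega))
        simp only [if_neg hum, if_pos hvm]
        refine le_trans ?_
          (hsub v.val (by omega) (u.val + 1) (by omega) _ (filter_subset _ _)).2
        rw [sum_comm, sum_filter (s := K (u.val + 1))]
        refine sum_le_sum fun c hc => ?_
        split_ifs with hb
        · rw [← ht c v.val (by omega), sum_filter]
          refine sum_le_sum fun r hr => ?_
          split_ifs with hr'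
          · exact le_rfl
          · by_contra hne
            have hne' : w c r ≠ 0 := fun h => hne h.le
            exact hr' (hb r hr (hE _ _ (hwE _ _ hne').2))
        · exact sum_nonneg fun r _ => hw0 c r)
    0 univ (fun _ => ∅) (by simp; linarith)
  have hf : ∀ v : Fin k, f v ∈ (if v.val < m0 then Y v.val else K (v.val + 1)) :=
    fun v => (hf1 v (mem_univ v)).1
  refine ⟨f, fun u v huv => ?_, fun v => ?_, fun u v huv => hf2 u (mem_univ _) v (mem_univ _) huv⟩
  · have hu := hf u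
    have hv := hf v
    have h1 : u.val < v.val := huv
    have h2 := v.2
    by_cases hvm : v.val < m0
    · rw [if_pos hvm] at hv
      rw [if_pos (by omega)] at hu
      exact hY _ _ h1 (by omega) _ hu _ hv
    · rw [if_neg hvm] at hv
      by_cases hum : u.val < m0
      · rw [if_pos hum] at hu
        have e1 := hY u.val k (by omega) (by omega) _ hu _ hr0
        have e2 := hK 0 (v.val + 1) (by omega) (by omega) _ hc0 _ hv
        omega
      · rw [if_neg hum] at hu
        exact hK _ _ (by omega) (by omega) _ hu _ hv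
  · have hv := hf v
    have h2 := v.2
    split_ifs at hv
    · exact Or.inl ⟨_, by omega, hv⟩
    · exact Or.inr ⟨_, by omega, hv⟩

end Pool.Agent.Lib.MP_a80a1d_co
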