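import Mathlib
import Pool.Agent.Lib.MP_a80a1d_co.Core

set_option autoImplicit false

namespace Pool.Agent.Lib.MP_a80a1d_co

open Finset

lemma disj_of_ordered (Y : ℕ → Finset ℕ) (a : ℕ)
    (hY : ∀ i i', i < i' → i' < a → ∀ y ∈ Y i, ∀ y' ∈ Y i', y < y') (s : Finset ℕ)
    (e : ℕ → ℕ) (he : StrictMono e) (hs : ∀ j ∈ s, e j < a) :
    (s : Set ℕ).PairwiseDisjoint (fun j => Y (e j)) := by
  intro i hi j hj hij
  rw [Function.onFun, disjoint_left]
  intro y h1 h2
  rcases lt_or_gt_of_ne hij with h | h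
  · exact lt_irrefl _ (hY _ _ (he h) (hs j hj) y h1 y h2)
  · exact lt_irrefl _ (hY _ _ (he h) (hs i hi) y h2 y h1)

open Classical in
/-- Matrix form: a dense enough relation contains the ordered forest. -/
lemma matrix_form (k : ℕ) (F : SimpleGraph (Fin k)) (hF : F.IsAcyclic) (m0 : ℕ)
    (hcut : ∀ i j : Fin k, F.Adj i j → (i.val < m0 ↔ m0 ≤ j.val)) (eps : ℝ) (heps : 0 < eps) :
    ∃ C : ℝ, ∀ (n : ℕ) (E : ℕ → ℕ → Prop), 0 < n → (∀ x y, E x y → E y x) →
      C * n * (n : ℝ) ^ eps < ∑ x ∈ range n, ∑ y ∈ range n, (if x < y ∧ E x y then 1 else 0) →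
      ∃ f : Fin k → ℕ, StrictMono f ∧ (∀ v, f v < n) ∧ ∀ u v, F.Adj u v → E (f u) (f v) := by
  set a := k + 1 with ha
  have ha0 : 0 < a := by omega
  have haR : (1 : ℝ) ≤ a := by exact_mod_cast ha0
  set eta : ℝ := 1 / (2 * a ^ 2) with heta
  have heta0 : 0 < eta := by positivity
  obtain ⟨C2, hC2, H2⟩ := homog' a ha0 eps heps
  obtain ⟨T, hT⟩ := exists_nat_ge (a * C2 / eta ^ 2)
  rw [div_le_iff₀ (by positivity)] at hT
  have hB0 : 0 < a ^ T := pow_pos ha0 T
  have hBR : (1 : ℝ) ≤ (a : ℝ) ^ T := one_le_pow₀ haR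
  obtain ⟨C1, hC1, H1⟩ := homog' (a ^ T) hB0 eps heps
  refine ⟨C1 * C2, fun n E hn hE htot => ?_⟩
  have hnR : (0 : ℝ) < n := by exact_mod_cast hn
  have hne : (0 : ℝ) < (n : ℝ) ^ eps := by positivity
  set W1 : ℕ → ℕ → ℝ := fun x y => if x < y ∧ E x y then 1 else 0 with hW1
  have hW10 : ∀ x y, 0 ≤ W1 x y := fun x y => by simp only [hW1]; split_ifs <;> norm_num
  have hW11 : ∀ x y, W1 x y ≤ 1 := fun x y => by simp only [hW1]; split_ifs <;> norm_num
  set tot := ∑ x ∈ range n, ∑ y ∈ range n, W1 x y with htotdef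
  obtain ⟨Cl, W', D, hCl, hClo, hW'0, hW'1, hD, h1⟩ := H1 n (range n) W1 (fun _ => 1) hW10 hW11
    (fun _ => zero_le_one) (by simpa using hn) (by
      rw [card_range]
      refine lt_of_le_of_lt ?_ htot
      have : 0 ≤ C1 * n * (n : ℝ) ^ eps := by positivity
      nlinarith)
  simp only [sum_const, card_range, nsmul_eq_mul, mul_one, ← htotdef] at h1
  have hD0 : ∀ r, 0 ≤ D r := fun r => by
    rw [← hD r 0 hB0]; exact sum_nonneg fun y _ => hW'0 r y
  set X2 := (range (a ^ T)).biUnion Cl with hX2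
  have hdisj := disj_of_ordered Cl (a ^ T) hClo (range (a ^ T)) id strictMono_id
    (fun j hj => mem_range.1 hj)
  have hX2sum : ∀ f : ℕ → ℝ, ∑ c ∈ X2, f c = ∑ j ∈ range (a ^ T), ∑ c ∈ Cl j, f c :=
    fun f => sum_biUnion hdisj
  have hX2card : (X2.card : ℝ) = ∑ j ∈ range (a ^ T), ((Cl j).card : ℝ) := by
    have := hX2sum (fun _ => 1)
    simpa using this
  rw [← hX2card] at h1
  set SD := ∑ r ∈ range n, D r with hSD
  have hXc : (0 : ℝ) ≤ X2.card := by positivity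
  have h2 : C2 * X2.card * (n : ℝ) ^ eps < SD := by
    have e1 : C1 * C2 * n * (n : ℝ) ^ eps * X2.card ≤ tot * X2.card :=
      mul_le_mul_of_nonneg_right htot.le hXc
    have e2 : (C1 * n) * (C2 * X2.card * (n : ℝ) ^ eps) < (C1 * n) * SD := by nlinarith
    exact lt_of_mul_lt_mul_left e2 (by positivity)
  have hSDpos : 0 < SD := lt_of_le_of_lt (by positivity) h2
  have htot2 : ∑ c ∈ X2, ∑ r ∈ range n, W' r c = (a : ℝ) ^ T * SD := by
    rw [sum_comm, hSD, mul_sum]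
    refine sum_congr rfl fun r _ => ?_
    rw [hX2sum, sum_congr rfl fun j hj => hD r j (mem_range.1 hj)]
    simp
  obtain ⟨Y, W'', t, hY, hYo, hW''0, hW''1, ht, h3⟩ := H2 n X2 (fun c r => W' r c) D
    (fun c r => hW'0 r c) (fun c r => (hW'1 r c).trans (hW11 r c)) hD0 hSDpos (by
      rw [htot2]; nlinarith)
  rw [htot2, ← hSD] at h3
  set Om := (range a).biUnion Y with hOm
  have hdisjY := disj_of_ordered Y a hYo (range a) id strictMono_id (fun j hj => mem_range.1 hj)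
  have hOmsum : ∀ f : ℕ → ℝ, ∑ c ∈ Om, f c = ∑ j ∈ range a, ∑ c ∈ Y j, f c :=
    fun f => sum_biUnion hdisjY
  have ht0 : ∀ c, 0 ≤ t c := fun c => by
    rw [← ht c 0 ha0]; exact sum_nonneg fun y _ => hW''0 c y
  set g : ℕ → ℕ → ℝ := fun j r => ∑ c ∈ Cl j, W'' c r with hg
  have hg0 : ∀ j r, 0 ≤ g j r := fun j r => sum_nonneg fun c _ => hW''0 c r
  have hgY : ∀ j, ∀ i < a, ∑ r ∈ Y i, g j r = ∑ c ∈ Cl j, t c := fun j i hi => by
    simp only [hg]
    rw [sum_comm]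
    exact sum_congr rfl fun c _ => ht c i hi
  obtain ⟨N, s, hsN, hreg⟩ := energy Om D g a T ha0 hg0
    (fun j hj r => by
      rw [← hD r j hj]
      exact sum_le_sum fun c _ => hW''1 c r) eta C2 heta0 hT (by
      rw [← hOmsum] at h3
      have e1 : SD * ((a : ℝ) ^ T * ∑ w ∈ Om, D w) < SD * (C2 * ∑ c ∈ X2, t c) := by nlinarith
      refine lt_of_lt_of_le (lt_of_mul_lt_mul_left e1 hSDpos.le)
        (mul_le_mul_of_nonneg_left ?_ (by linarith))
      rw [hOmsum]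
      have e2 : ∀ i ∈ range a, ∑ r ∈ Y i, ∑ j ∈ range (a ^ T), g j r = ∑ c ∈ X2, t c := by
        intro i hi
        rw [sum_comm, hX2sum]
        exact sum_congr rfl fun j _ => hgY j i (mem_range.1 hi)
      rw [sum_congr rfl e2, sum_const, card_range, nsmul_eq_mul]
      have : 0 ≤ ∑ c ∈ X2, t c := sum_nonneg fun c _ => ht0 c
      nlinarith)
  set Gt : ℕ → ℝ := fun r => ∑ j ∈ range (a * N), g (s + j) r with hGt
  set tau := ∑ j ∈ range (a * N), ∑ c ∈ Cl (s + j), t c with htau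
  have hGY : ∀ i < a, ∑ r ∈ Y i, Gt r = tau := fun i hi => by
    simp only [hGt]
    rw [sum_comm]
    exact sum_congr rfl fun j _ => hgY _ i hi
  have hLam : ∑ r ∈ Om, Gt r = a * tau := by
    rw [hOmsum, sum_congr rfl fun i hi => hGY i (mem_range.1 hi)]
    simp
  have hidx : ∀ d < a, ∀ j < N, s + (d * N + j) < a ^ T := fun d hd j hj => by nlinarith
  set K : ℕ → Finset ℕ := fun d => (range N).biUnion (fun j => Cl (s + (d * N + j))) with hK
  have hKsum : ∀ d < a, ∀ f : ℕ → ℝ,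
      ∑ c ∈ K d, f c = ∑ j ∈ range N, ∑ c ∈ Cl (s + (d * N + j)), f c := fun d hd f =>
    sum_biUnion (disj_of_ordered Cl (a ^ T) hClo (range N) (fun j => s + (d * N + j))
      (fun i j hij => by simpa using hij) (fun j hj => hidx d hd j (mem_range.1 hj)))
  have htaupos : 0 < tau := by
    have e1 := lt_of_le_of_lt (sum_nonneg fun _ _ => abs_nonneg _) (hreg 0 ha0)
    change 0 < eta * ∑ r ∈ Om, Gt r at e1
    rw [hLam] at e1
    by_contra hc
    have : eta * (a * tau) ≤ 0 :=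
      mul_nonpos_of_nonneg_of_nonpos heta0.le (mul_nonpos_of_nonneg_of_nonpos (by linarith)
        (not_lt.1 hc))
    linarith
  obtain ⟨f, hf1, hf2, hf3⟩ := core k F hF m0 hcut E hE Y K (fun c r => a * W'' c r)
    (fun c => a * t c) Gt tau (eta * (a * tau)) hYo
    (fun d d' hd hd' y hy y' hy' => by
      obtain ⟨j, hj, hyj⟩ := mem_biUnion.1 hy
      obtain ⟨j', hj', hyj'⟩ := mem_biUnion.1 hy'
      have e1 := mem_range.1 hj
      refine hClo _ _ ?_ (hidx d' hd' j' (mem_range.1 hj')) y hyj y' hyj'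
      nlinarith)
    (fun c r => mul_nonneg (by linarith) (hW''0 c r))
    (fun c r hne => by
      by_contra hc
      have e1 := (hW''1 c r).trans (hW'1 r c)
      simp only [hW1, if_neg hc] at e1
      exact hne (by rw [le_antisymm e1 (hW''0 c r), mul_zero]))
    (fun c i hi => by rw [← mul_sum, ht c i hi])
    (fun r => sum_nonneg fun j _ => hg0 _ r) hGY
    (fun i hi d hd => by
      have e1 := (hreg d hd).le
      change _ ≤ eta * ∑ r ∈ Om, Gt r at e1
      rw [hLam] at e1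
      refine le_trans ?_ e1
      have e2 : ∀ r, ∑ c ∈ K d, a * W'' c r = a * ∑ j ∈ range N, g (s + (d * N + j)) r := by
        intro r
        rw [← mul_sum, hKsum d hd]
      simp only [e2]
      exact sum_le_sum_of_subset_of_nonneg
        (subset_biUnion_of_mem Y (mem_range.2 hi)) fun _ _ _ => abs_nonneg _)
    (by
      have e1 : ((k : ℝ) + 1) = a := by rw [ha]; push_cast; ring
      rw [e1, heta]
      have : (a : ℝ) * (1 / (2 * a ^ 2) * (a * tau)) = tau / 2 := by field_simp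
      rw [this]; linarith)
  refine ⟨f, hf1, fun v => ?_, hf3⟩
  rcases hf2 v with ⟨i, _, hi⟩ | ⟨d, _, hd⟩
  · exact mem_range.1 (hY i hi)
  · obtain ⟨j, _, hj⟩ := mem_biUnion.1 hd
    exact mem_range.1 (hCl _ hj)

open Classical in
lemma edge_count (n : ℕ) (G : SimpleGraph (Fin n)) :
    (G.edgeSet.ncard : ℝ) ≤ ∑ x ∈ range n, ∑ y ∈ range n,
      (if x < y ∧ ∃ (hx : x < n) (hy : y < n), G.Adj ⟨x, hx⟩ ⟨y, hy⟩ then 1 else 0) := by
  let P : Finset (Fin n × Fin n) := univ.filter fun p => p.1 < p.2 ∧ G.Adj p.1 p.2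
  have h1 : G.edgeSet ⊆ (P.image fun p => s(p.1, p.2) : Finset (Sym2 (Fin n))) := by
    intro e he
    induction e using Sym2.ind with
    | h x y =>
      rw [SimpleGraph.mem_edgeSet] at he
      simp only [coe_image, Set.mem_image, mem_coe, P, mem_filter, mem_univ, true_and]
      rcases lt_or_gt_of_ne he.ne with h | h
      · exact ⟨(x, y), ⟨h, he⟩, rfl⟩
      · exact ⟨(y, x), ⟨h, he.symm⟩, Sym2.eq_swap⟩
  have h2 : G.edgeSet.ncard ≤ P.card := by
    refine (Set.ncard_le_ncard h1 (finite_toSet _)).trans ?_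
    rw [Set.ncard_coe_finset]
    exact card_image_le
  refine le_trans (Nat.cast_le.2 h2) (le_of_eq ?_)
  rw [card_filter, Fintype.sum_prod_type, sum_range]
  push_cast
  refine sum_congr rfl fun x _ => ?_
  rw [sum_range]
  refine sum_congr rfl fun y _ => ?_
  simp

theorem weak_pach_tardos (k : ℕ) (F : SimpleGraph (Fin k)) (hF : F.IsAcyclic)
    (hm : ∃ m : ℕ, ∀ i j : Fin k, F.Adj i j → (i.val < m ↔ m ≤ j.val))
    (ε : ℝ) (hε : 0 < ε) : ∃ N : ℕ, ∀ n : ℕ, N ≤ n → ∀ G : SimpleGraph (Fin n),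
      (¬ ∃ f : Fin k → Fin n, StrictMono f ∧ ∀ i j : Fin k, F.Adj i j → G.Adj (f i) (f j)) →
      (G.edgeSet.ncard : ℝ) ≤ (n : ℝ) ^ (1 + ε) := by
  obtain ⟨m0, hcut⟩ := hm
  obtain ⟨C, hC⟩ := matrix_form k F hF m0 hcut (ε / 2) (by linarith)
  have hev : ∀ᶠ n : ℕ in Filter.atTop, C ≤ (n : ℝ) ^ (ε / 2) :=
    ((tendsto_rpow_atTop (by linarith : 0 < ε / 2)).comp
      tendsto_natCast_atTop_atTop).eventually_ge_atTop C
  obtain ⟨N, hN⟩ := Filter.eventually_atTop.1 hev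
  refine ⟨N + 1, fun n hn G hG => ?_⟩
  by_contra hcon
  push Not at hcon
  have hn0 : 0 < n := by omega
  have hnR : (0 : ℝ) < n := by exact_mod_cast hn0
  obtain ⟨f, hf1, hf2, hf3⟩ := hC n
    (fun x y => ∃ (hx : x < n) (hy : y < n), G.Adj ⟨x, hx⟩ ⟨y, hy⟩) hn0
    (fun x y ⟨hx, hy, h⟩ => ⟨hy, hx, h.symm⟩) (by
      refine lt_of_le_of_lt ?_ (lt_of_lt_of_le hcon ((edge_count n G).trans (le_of_eq (by congr!))))
      have e1 : (n : ℝ) ^ (1 + ε) = (n : ℝ) ^ (ε / 2) * n * (n : ℝ) ^ (ε / 2) := by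
        rw [show 1 + ε = ε / 2 + 1 + ε / 2 by ring, Real.rpow_add hnR, Real.rpow_add hnR,
          Real.rpow_one]
      rw [e1]
      exact mul_le_mul_of_nonneg_right (mul_le_mul_of_nonneg_right (hN n (by omega)) hnR.le)
        (by positivity))
  refine hG ⟨fun v => ⟨f v, hf2 v⟩, fun u v huv => hf1 huv, fun i j hij => ?_⟩
  obtain ⟨_, _, h⟩ := hf3 i j hij
  exact h

end Pool.Agent.Lib.MP_a80a1d_co
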